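import Pool.Agent.H137Z.T3.AMain

/-!
Turan's (3,4)-conjecture for the 3-graphs that contain no induced copy of either of two explicit
3-graphs on six points.
-/

namespace Pool.Agent.Results.MP_466853_co.ATwoSixPoint

open Pool.Agent.H137Z.T3

/-- a 3-graph with six points and seven edges -/
def F1 : Finset (Finset (Fin 6)) :=
  {{0, 1, 5}, {0, 2, 3}, {1, 2, 4}, {1, 3, 4}, {2, 3, 5}, {2, 4, 5}, {3, 4, 5}}

/-- a 3-graph with six points and eight edges -/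
def F2 : Finset (Finset (Fin 6)) :=
  {{0, 1, 4}, {0, 1, 5}, {0, 2, 3}, {1, 4, 5}, {2, 3, 4}, {2, 3, 5}, {2, 4, 5}, {3, 4, 5}}

theorem result :
    (∀ (n : ℕ) (G : Finset (Finset (Fin n))), (∀ e ∈ G, e.card = 3) →
      (∀ S : Finset (Fin n), S.card = 4 → ∃ e ∈ G, e ⊆ S) →
      ¬ HasInduced F1 G → ¬ HasInduced F2 G →
      ((n.choose 3 : ℕ) : ℝ) - 5 / 54 * (n : ℝ) ^ 3 ≤ (G.card : ℝ)) ∧
    (∀ ε : ℝ, 0 < ε → ∃ N : ℕ, ∀ n : ℕ, N ≤ n →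
      (∀ G : Finset (Finset (Fin n)), (∀ e ∈ G, e.card = 3) →
        (∀ S : Finset (Fin n), S.card = 4 → ∃ e ∈ G, e ⊆ S) →
        ¬ HasInduced F1 G → ¬ HasInduced F2 G →
        (4 / 9 - ε) * ((n.choose 3 : ℕ) : ℝ) ≤ (G.card : ℝ)) ∧
      (∃ G : Finset (Finset (Fin n)), (∀ e ∈ G, e.card = 3) ∧
        (∀ S : Finset (Fin n), S.card = 4 → ∃ e ∈ G, e ⊆ S) ∧
        ¬ HasInduced F1 G ∧ ¬ HasInduced F2 G ∧
        (G.card : ℝ) ≤ (4 / 9 + ε) * ((n.choose 3 : ℕ) : ℝ))) :=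
  Pool.Agent.H137Z.T3.A.main

end Pool.Agent.Results.MP_466853_co.ATwoSixPoint
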